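import Mathlib
import Pool.Agent.R449.HypDiv

/-!
# MP_c10acd_nt: energy of squares from `[N, N + N ^ α]` for `α < (√5 - 1) / 2`

The weighted inequality `‖f‖_4 ≤ C ‖f‖_2` (and in particular the bound `C |E| ^ 2` for the additive
energy) holds for every `α < (√5 - 1) / 2 = 0.618...`.
-/

set_option autoImplicit false

open Finset
open scoped Pointwise ComplexConjugate

namespace Pool.Agent.Results.MP_c10acd_nt.GoldenWindow

/-- the number of ordered representations of `m` as a sum of two elements of `E` -/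
def rep (E : Finset ℤ) (m : ℤ) : ℕ := ((E ×ˢ E).filter (fun p => p.1 + p.2 = m)).card

/-- the additive energy `∑_m rep E m ^ 2` (the summands with `m ∉ E + E` vanish) -/
def energy (E : Finset ℤ) : ℕ := ∑ m ∈ E + E, rep E m ^ 2

/-- `E` consists of squares `k ^ 2` with `N ≤ k ≤ N + N ^ α` -/
def SquaresIn (α : ℝ) (N : ℕ) (E : Finset ℤ) : Prop :=
  ∀ m ∈ E, ∃ k : ℤ, (N : ℝ) ≤ k ∧ (k : ℝ) ≤ N + (N : ℝ) ^ α ∧ m = k ^ 2

/-- `e(n θ)` -/
noncomputable def ex (n : ℤ) (θ : ℝ) : ℂ := Complex.exp (2 * Real.pi * Complex.I * n * θ)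

/-- the trigonometric polynomial `∑_{m ∈ E} a_m e(m θ)` -/
noncomputable def trig (E : Finset ℤ) (a : ℤ → ℂ) (θ : ℝ) : ℂ := ∑ m ∈ E, a m * ex m θ

/-! ### Fourier analysis -/

theorem ex_add (m n : ℤ) (θ : ℝ) : ex (m + n) θ = ex m θ * ex n θ := by
  unfold ex
  rw [← Complex.exp_add]
  congr 1
  push_cast
  ring

theorem conj_ex (n : ℤ) (θ : ℝ) : conj (ex n θ) = ex (-n) θ := by
  unfold ex
  rw [← Complex.exp_conj]
  congr 1
  simp only [map_mul, Complex.conj_I, Complex.conj_ofReal, map_ofNat, map_intCast]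
  push_cast
  ring

theorem continuous_ex (n : ℤ) : Continuous (ex n) := by
  unfold ex
  fun_prop

theorem integral_ex (n : ℤ) : ∫ θ in (0 : ℝ)..1, ex n θ = if n = 0 then 1 else 0 := by
  split_ifs with h
  · subst h
    simp [ex]
  · have hc : (2 * Real.pi * Complex.I * n : ℂ) ≠ 0 := by
      simp [Real.pi_ne_zero, h]
    unfold ex
    rw [integral_exp_mul_complex hc]
    have h1 : (2 * Real.pi * Complex.I * n * ((1 : ℝ) : ℂ) : ℂ) = n * (2 * Real.pi * Complex.I) := by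
      push_cast
      ring
    rw [h1, Complex.exp_int_mul_two_pi_mul_I]
    simp

theorem continuous_trig (E : Finset ℤ) (a : ℤ → ℂ) : Continuous (trig E a) := by
  unfold trig
  exact continuous_finsetSum _ (fun m _ => continuous_const.mul (continuous_ex m))

theorem parseval (E : Finset ℤ) (a : ℤ → ℂ) :
    ∫ θ in (0 : ℝ)..1, ‖trig E a θ‖ ^ 2 = ∑ m ∈ E, ‖a m‖ ^ 2 := by
  have h1 : ((∫ θ in (0 : ℝ)..1, ‖trig E a θ‖ ^ 2 : ℝ) : ℂ) = ((∑ m ∈ E, ‖a m‖ ^ 2 : ℝ) : ℂ) := by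
    rw [← intervalIntegral.integral_ofReal]
    have h2 : ∀ θ : ℝ, ((‖trig E a θ‖ ^ 2 : ℝ) : ℂ) =
        ∑ m ∈ E, ∑ n ∈ E, (a m * conj (a n)) * ex (m - n) θ := by
      intro θ
      have h3 : ((‖trig E a θ‖ ^ 2 : ℝ) : ℂ) = trig E a θ * conj (trig E a θ) := by
        rw [Complex.mul_conj, Complex.normSq_eq_norm_sq]
      rw [h3]
      unfold trig
      rw [map_sum, sum_mul_sum]
      refine sum_congr rfl (fun m _ => sum_congr rfl (fun n _ => ?_))
      rw [map_mul, conj_ex, sub_eq_add_neg, ex_add]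
      ring
    simp_rw [h2]
    rw [intervalIntegral.integral_finsetSum]
    · push_cast
      refine sum_congr rfl (fun m hm => ?_)
      rw [intervalIntegral.integral_finsetSum]
      · simp_rw [intervalIntegral.integral_const_mul, integral_ex]
        rw [sum_eq_single m]
        · rw [sub_self, if_pos rfl, mul_one, Complex.mul_conj, Complex.normSq_eq_norm_sq]
          push_cast
          rfl
        · intro n _ hnm
          rw [if_neg (fun h => hnm (sub_eq_zero.1 h).symm), mul_zero]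
        · intro h
          exact absurd hm h
      · intro n _
        exact (continuous_const.mul (continuous_ex _)).intervalIntegrable _ _
    · intro m _
      exact (continuous_finsetSum _
        (fun n _ => continuous_const.mul (continuous_ex _))).intervalIntegrable _ _
  exact_mod_cast h1

/-- coefficients of `|f| ^ 2` -/
noncomputable def cor (E : Finset ℤ) (a : ℤ → ℂ) (D : ℤ) : ℂ :=
  ∑ p ∈ (E ×ˢ E).filter (fun p => p.1 - p.2 = D), a p.1 * conj (a p.2)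

theorem fourth (E : Finset ℤ) (a : ℤ → ℂ) :
    ∫ θ in (0 : ℝ)..1, ‖trig E a θ‖ ^ 4 = ∑ D ∈ E - E, ‖cor E a D‖ ^ 2 := by
  rw [← parseval]
  congr 1
  ext θ
  have h1 : trig (E - E) (cor E a) θ = trig E a θ * conj (trig E a θ) := by
    unfold trig cor
    rw [map_sum, sum_mul_sum, ← sum_product', ← sum_fiberwise_of_maps_to
      (s := E ×ˢ E) (t := E - E) (g := fun p => p.1 - p.2)]
    · refine sum_congr rfl (fun D _ => ?_)
      rw [sum_mul]
      refine sum_congr rfl (fun p hp => ?_)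
      rw [mem_filter] at hp
      rw [map_mul, conj_ex, ← hp.2, sub_eq_add_neg, ex_add]
      ring
    · intro p hp
      rw [mem_product] at hp
      exact sub_mem_sub hp.1 hp.2
  rw [h1, norm_mul, Complex.norm_conj]
  ring

theorem fourth_one (E : Finset ℤ) :
    ∫ θ in (0 : ℝ)..1, ‖trig E (fun _ => 1) θ‖ ^ 4 = energy E := by
  have h0 : (energy E : ℝ) = ∑ m ∈ E + E, ‖((rep E m : ℕ) : ℂ)‖ ^ 2 := by
    unfold energy
    push_cast
    refine sum_congr rfl (fun m _ => ?_)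
    rw [Complex.norm_natCast]
  rw [h0, ← parseval (E + E) (fun m => ((rep E m : ℕ) : ℂ))]
  congr 1
  ext θ
  have h1 : trig (E + E) (fun m => ((rep E m : ℕ) : ℂ)) θ =
      trig E (fun _ => 1) θ * trig E (fun _ => 1) θ := by
    unfold trig rep
    rw [sum_mul_sum, ← sum_product', ← sum_fiberwise_of_maps_to
      (s := E ×ˢ E) (t := E + E) (g := fun p => p.1 + p.2)]
    · refine sum_congr rfl (fun D _ => ?_)
      have h2 : ∀ p ∈ (E ×ˢ E).filter (fun p => p.1 + p.2 = D),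
          (1 : ℂ) * ex p.1 θ * (1 * ex p.2 θ) = ex D θ := by
        intro p hp
        rw [mem_filter] at hp
        rw [← hp.2, ex_add]
        ring
      refine Eq.trans ?_ (sum_congr rfl h2).symm
      rw [sum_const, nsmul_eq_mul]
    · intro p hp
      rw [mem_product] at hp
      exact add_mem_add hp.1 hp.2
  rw [h1, norm_mul]
  ring

theorem fourth_le (E : Finset ℤ) (a : ℤ → ℂ) (K : ℕ)
    (hK : ∀ D : ℤ, D ≠ 0 → ((E ×ˢ E).filter (fun p => p.1 - p.2 = D)).card ≤ K) :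
    ∫ θ in (0 : ℝ)..1, ‖trig E a θ‖ ^ 4 ≤
      (K + 1) * (∫ θ in (0 : ℝ)..1, ‖trig E a θ‖ ^ 2) ^ 2 := by
  rw [fourth, parseval]
  set S : ℝ := ∑ m ∈ E, ‖a m‖ ^ 2 with hS
  have hS2 : S ^ 2 = ∑ p ∈ E ×ˢ E, ‖a p.1‖ ^ 2 * ‖a p.2‖ ^ 2 := by
    rw [hS, sq, sum_mul_sum, ← sum_product']
  have hS3 : S ^ 2 = ∑ D ∈ E - E, ∑ p ∈ (E ×ˢ E).filter (fun p => p.1 - p.2 = D),
      ‖a p.1‖ ^ 2 * ‖a p.2‖ ^ 2 := by
    rw [hS2, ← sum_fiberwise_of_maps_to (s := E ×ˢ E) (t := E - E) (g := fun p => p.1 - p.2)]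
    intro p hp
    rw [mem_product] at hp
    exact sub_mem_sub hp.1 hp.2
  have h0 : ‖cor E a 0‖ ≤ S := by
    unfold cor
    refine (norm_sum_le _ _).trans ?_
    have h1 : (E ×ˢ E).filter (fun p => p.1 - p.2 = 0) = E.image (fun x => (x, x)) := by
      ext ⟨x, y⟩
      simp only [mem_filter, mem_product, mem_image, Prod.mk.injEq, sub_eq_zero]
      constructor
      · rintro ⟨⟨hx, -⟩, rfl⟩
        exact ⟨x, hx, rfl, rfl⟩
      · rintro ⟨z, hz, rfl, rfl⟩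
        exact ⟨⟨hz, hz⟩, rfl⟩
    rw [h1, sum_image (fun x _ y _ h => (Prod.mk.inj h).1), hS]
    refine le_of_eq (sum_congr rfl (fun x _ => ?_))
    rw [norm_mul, Complex.norm_conj, sq]
  have hbound : ∀ D ∈ E - E, ‖cor E a D‖ ^ 2 ≤ (if D = 0 then S ^ 2 else 0) +
      K * ∑ p ∈ (E ×ˢ E).filter (fun p => p.1 - p.2 = D), ‖a p.1‖ ^ 2 * ‖a p.2‖ ^ 2 := by
    intro D _
    have hnn : 0 ≤ ∑ p ∈ (E ×ˢ E).filter (fun p => p.1 - p.2 = D), ‖a p.1‖ ^ 2 * ‖a p.2‖ ^ 2 :=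
      sum_nonneg (fun p _ => by positivity)
    split_ifs with hD
    · subst hD
      have : ‖cor E a 0‖ ^ 2 ≤ S ^ 2 := pow_le_pow_left₀ (norm_nonneg _) h0 2
      have h3 : (0 : ℝ) ≤ K * ∑ p ∈ (E ×ˢ E).filter (fun p => p.1 - p.2 = 0),
          ‖a p.1‖ ^ 2 * ‖a p.2‖ ^ 2 := mul_nonneg (Nat.cast_nonneg _) hnn
      linarith
    · rw [zero_add]
      calc ‖cor E a D‖ ^ 2 ≤
          (∑ p ∈ (E ×ˢ E).filter (fun p => p.1 - p.2 = D), ‖a p.1‖ * ‖a p.2‖) ^ 2 := by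
            refine pow_le_pow_left₀ (norm_nonneg _) ?_ 2
            unfold cor
            refine (norm_sum_le _ _).trans (le_of_eq (sum_congr rfl (fun p _ => ?_)))
            rw [norm_mul, Complex.norm_conj]
        _ ≤ ((E ×ˢ E).filter (fun p => p.1 - p.2 = D)).card *
            ∑ p ∈ (E ×ˢ E).filter (fun p => p.1 - p.2 = D), (‖a p.1‖ * ‖a p.2‖) ^ 2 :=
            sq_sum_le_card_mul_sum_sq
        _ ≤ K * ∑ p ∈ (E ×ˢ E).filter (fun p => p.1 - p.2 = D), ‖a p.1‖ ^ 2 * ‖a p.2‖ ^ 2 := by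
            simp_rw [mul_pow]
            exact mul_le_mul_of_nonneg_right (by exact_mod_cast hK D hD) hnn
  calc ∑ D ∈ E - E, ‖cor E a D‖ ^ 2 ≤ ∑ D ∈ E - E, ((if D = 0 then S ^ 2 else 0) +
      K * ∑ p ∈ (E ×ˢ E).filter (fun p => p.1 - p.2 = D), ‖a p.1‖ ^ 2 * ‖a p.2‖ ^ 2) :=
        sum_le_sum hbound
    _ = (∑ D ∈ E - E, if D = 0 then S ^ 2 else 0) + K * S ^ 2 := by
        rw [sum_add_distrib, ← mul_sum, ← hS3]
    _ ≤ S ^ 2 + K * S ^ 2 := by
        have h4 : (∑ D ∈ E - E, if D = 0 then S ^ 2 else 0) ≤ S ^ 2 := by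
          rw [sum_ite_eq']
          split_ifs
          · exact le_rfl
          · positivity
        linarith
    _ = (K + 1) * S ^ 2 := by ring

/-! ### Counting -/

theorem card_lt_of_pos (α : ℝ) (N : ℕ) (E : Finset ℤ) (hE : SquaresIn α N E) (k : ℕ) (D : ℤ)
    (hfew : ∀ x z : Fin k → ℤ,
      (∀ i, (N : ℝ) ≤ x i ∧ (x i : ℝ) ≤ N + (N : ℝ) ^ α) →
      (∀ i, (N : ℝ) ≤ z i ∧ (z i : ℝ) ≤ N + (N : ℝ) ^ α) →
      (∀ i, x i ^ 2 - z i ^ 2 = D) → ¬ Function.Injective (fun i => (x i, z i)))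
    (T : Finset (ℤ × ℤ)) (hT : T ⊆ E ×ˢ E) (hTD : ∀ p ∈ T, p.1 - p.2 = D) : T.card < k := by
  by_contra hcon
  push Not at hcon
  obtain ⟨T', hT', hcard⟩ := exists_subset_card_eq hcon
  choose! g hg1 hg2 hg3 using hE
  let q : Fin k → ℤ × ℤ := fun i => ((T'.equivFinOfCardEq hcard).symm i : ℤ × ℤ)
  have hq : ∀ i, q i ∈ T := fun i => hT' ((T'.equivFinOfCardEq hcard).symm i).2
  have hq1 : ∀ i, (q i).1 ∈ E := fun i => (mem_product.1 (hT (hq i))).1
  have hq2 : ∀ i, (q i).2 ∈ E := fun i => (mem_product.1 (hT (hq i))).2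
  have hqinj : Function.Injective q := fun i j hij =>
    (T'.equivFinOfCardEq hcard).symm.injective (Subtype.ext hij)
  refine hfew (fun i => g (q i).1) (fun i => g (q i).2)
    (fun i => ⟨hg1 _ (hq1 i), hg2 _ (hq1 i)⟩) (fun i => ⟨hg1 _ (hq2 i), hg2 _ (hq2 i)⟩) ?_ ?_
  · intro i
    show g (q i).1 ^ 2 - g (q i).2 ^ 2 = D
    rw [← hg3 _ (hq1 i), ← hg3 _ (hq2 i)]
    exact hTD _ (hq i)
  · intro i j hij
    apply hqinj
    have h1 : g (q i).1 = g (q j).1 := (Prod.mk.inj hij).1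
    have h2 : g (q i).2 = g (q j).2 := (Prod.mk.inj hij).2
    apply Prod.ext
    · rw [hg3 _ (hq1 i), hg3 _ (hq1 j), h1]
    · rw [hg3 _ (hq2 i), hg3 _ (hq2 j), h2]

theorem card_bounded (α : ℝ) (hα : α < (Real.sqrt 5 - 1) / 2) :
    ∃ K : ℕ, ∀ N : ℕ, 1 ≤ N → ∀ E : Finset ℤ, SquaresIn α N E → ∀ D : ℤ, D ≠ 0 →
      ((E ×ˢ E).filter (fun p => p.1 - p.2 = D)).card ≤ K := by
  -- replace `α` by `max α (1/2)`
  set β : ℝ := max α (1 / 2) with hβ
  have hβ0 : 1 / 2 ≤ β := le_max_right _ _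
  have hs5 : Real.sqrt 5 ^ 2 = 5 := Real.sq_sqrt (by norm_num)
  have hs50 : 0 ≤ Real.sqrt 5 := Real.sqrt_nonneg 5
  have hs2 : 2 < Real.sqrt 5 := by
    rw [Real.lt_sqrt (by norm_num)]; norm_num
  have hβ1 : β < (Real.sqrt 5 - 1) / 2 := max_lt hα (by linarith)
  have hβ2 : β ^ 2 + β < 1 := by nlinarith
  have hβ3 : β < 1 := by nlinarith
  obtain ⟨k, N0, hk, hfew⟩ := Pool.Agent.R449.HypDiv.few β hβ0 hβ2
  refine ⟨max k ((⌊2 * N0⌋₊ + 1) ^ 2), ?_⟩
  intro N hN E hE D hD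
  have hN1 : (1 : ℝ) ≤ N := by exact_mod_cast hN
  have hEβ : SquaresIn β N E := by
    intro m hm
    obtain ⟨x, h1, h2, h3⟩ := hE m hm
    refine ⟨x, h1, h2.trans ?_, h3⟩
    have := Real.rpow_le_rpow_of_exponent_le hN1 (le_max_left α (1 / 2))
    linarith
  by_cases hNN : N0 ≤ (N : ℝ)
  · refine le_max_of_le_left ?_
    rcases lt_or_gt_of_ne hD with hneg | hpos
    · have h1 := card_lt_of_pos β N E hEβ k (-D)
        (fun x z => hfew N hNN hN1 (-D) (by omega) x z)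
        (((E ×ˢ E).filter (fun p => p.1 - p.2 = D)).image Prod.swap) ?_ ?_
      · rw [card_image_of_injective _ Prod.swap_injective] at h1
        exact h1.le
      · intro p hp
        rw [mem_image] at hp
        obtain ⟨q, hq, rfl⟩ := hp
        rw [mem_filter, mem_product] at hq
        rw [mem_product]
        exact ⟨hq.1.2, hq.1.1⟩
      · intro p hp
        rw [mem_image] at hp
        obtain ⟨q, hq, rfl⟩ := hp
        rw [mem_filter] at hq
        rw [Prod.fst_swap, Prod.snd_swap, ← hq.2]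
        ring
    · exact (card_lt_of_pos β N E hEβ k D
        (fun x z => hfew N hNN hN1 D hpos x z)
        ((E ×ˢ E).filter (fun p => p.1 - p.2 = D)) (filter_subset _ _)
        (fun p hp => (mem_filter.1 hp).2)).le
  · push Not at hNN
    refine le_max_of_le_right ?_
    have h1 : E ⊆ (Finset.range (⌊2 * N0⌋₊ + 1)).image (fun n : ℕ => (n : ℤ) ^ 2) := by
      intro m hm
      obtain ⟨x, h1, h2, h3⟩ := hEβ m hm
      have hNβ : (N : ℝ) ^ β ≤ N := by
        calc (N : ℝ) ^ β ≤ (N : ℝ) ^ (1 : ℝ) := Real.rpow_le_rpow_of_exponent_le hN1 hβ3.le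
          _ = N := Real.rpow_one _
      have hx0 : 0 ≤ x := by
        have : (0 : ℝ) ≤ x := by linarith
        exact_mod_cast this
      obtain ⟨n, rfl⟩ := Int.eq_ofNat_of_zero_le hx0
      rw [mem_image]
      refine ⟨n, ?_, h3.symm⟩
      rw [mem_range, Nat.lt_add_one_iff]
      apply Nat.le_floor
      have h4 : (n : ℝ) ≤ N + (N : ℝ) ^ β := by exact_mod_cast h2
      linarith
    have h2 : E.card ≤ ⌊2 * N0⌋₊ + 1 := by
      refine (card_le_card h1).trans (card_image_le.trans ?_)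
      rw [card_range]
    calc ((E ×ˢ E).filter (fun p => p.1 - p.2 = D)).card ≤ (E ×ˢ E).card := card_filter_le _ _
      _ = E.card ^ 2 := by rw [card_product, sq]
      _ ≤ _ := Nat.pow_le_pow_left h2 2

/-- For every `ε > (3 - √5) / 2 = 0.3819...` the energy bound of Q1 holds; moreover the weighted
inequality `‖f‖_4 ^ 4 ≤ C ‖f‖_2 ^ 4` holds for every `α < (√5 - 1) / 2 = 0.6180...`. -/
theorem result :
    (∀ ε : ℝ, (3 - Real.sqrt 5) / 2 < ε → ∃ C : ℝ, ∀ N : ℕ, 1 ≤ N → ∀ E : Finset ℤ,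
      SquaresIn (1 - ε) N E → (energy E : ℝ) ≤ C * (E.card : ℝ) ^ 2) ∧
    (∀ α : ℝ, α < (Real.sqrt 5 - 1) / 2 → ∃ C : ℝ, ∀ N : ℕ, 1 ≤ N → ∀ E : Finset ℤ,
      SquaresIn α N E → ∀ a : ℤ → ℂ,
        ∫ θ in (0 : ℝ)..1, ‖trig E a θ‖ ^ 4 ≤ C * (∫ θ in (0 : ℝ)..1, ‖trig E a θ‖ ^ 2) ^ 2) := by
  have key : ∀ α : ℝ, α < (Real.sqrt 5 - 1) / 2 → ∃ C : ℝ, ∀ N : ℕ, 1 ≤ N → ∀ E : Finset ℤ,
      SquaresIn α N E → ∀ a : ℤ → ℂ,
        ∫ θ in (0 : ℝ)..1, ‖trig E a θ‖ ^ 4 ≤ C * (∫ θ in (0 : ℝ)..1, ‖trig E a θ‖ ^ 2) ^ 2 := by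
    intro α hα
    obtain ⟨K, hK⟩ := card_bounded α hα
    exact ⟨K + 1, fun N hN E hE a => fourth_le E a K (hK N hN E hE)⟩
  refine ⟨?_, key⟩
  intro ε hε
  obtain ⟨C, hC⟩ := key (1 - ε) (by linarith)
  refine ⟨C, fun N hN E hE => ?_⟩
  have h1 := hC N hN E hE (fun _ => 1)
  rw [fourth_one, parseval] at h1
  simpa using h1

end Pool.Agent.Results.MP_c10acd_nt.GoldenWindow
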